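import Pool.Agent.J4H39.SM.Stm
import Pool.Agent.J4H49.SC.Nc
import Pool.Agent.J4H79.SC.Tail

set_option autoImplicit false

/-! Project SM of helper39, job SLO: lower bound for the probability that all walkers are together. -/

namespace Pool.Agent.J4H98.SM

open Finset Filter Real
open Pool.Agent.J4H39 Pool.Agent.J4H39.SM Pool.Agent.J4H39.SC
open Pool.Agent.J4H49.SC (t_ONE cw_lin cw_const cw_mono_ord U_mono_int)
open Pool.Agent.J4H79.SC (t_TAIL)

/-- the walkers are together if the extreme ones are -/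
theorem cw_same_ge {k : ℕ} (hk : 1 ≤ k) (n : ℕ) (z : Fin (k + 1) → ℤ) : ∃ a b : Fin k,
    z a.succ ≤ z b.succ ∧ 1 - U (2 * n) (2 * (z b.succ - z a.succ)) ≤
      cw (fun y : Fin (k + 1) → ℤ => id1 (Same y)) n z := by
  haveI : Nonempty (Fin k) := ⟨⟨0, hk⟩⟩
  obtain ⟨a, ha⟩ := Finite.exists_min (fun i : Fin k => z i.succ)
  obtain ⟨b, hb⟩ := Finite.exists_max (fun i : Fin k => z i.succ)
  refine ⟨a, b, ha b, ?_⟩
  have h1 : cw (fun y : Fin (k + 1) → ℤ => id1 (y a.succ ≠ y b.succ)) n z =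
      U (2 * n) (2 * (z b.succ - z a.succ)) := t_ONE (k + 1) n z a.succ b.succ
  have h2 : cw (fun y : Fin (k + 1) → ℤ => 1 * (1 : ℝ) + (-1) * id1 (y a.succ ≠ y b.succ)) n z =
      1 - U (2 * n) (2 * (z b.succ - z a.succ)) := by
    rw [cw_lin (fun _ : Fin (k + 1) → ℤ => (1 : ℝ))
      (fun y : Fin (k + 1) → ℤ => id1 (y a.succ ≠ y b.succ)) 1 (-1) n z, cw_const, h1]
    ring
  rw [← h2]
  refine cw_mono_ord n z fun y hy => ?_
  by_cases h : y a.succ = y b.succ
  · have hs : Same y := by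
      intro i j
      have e1 := hy _ _ (ha i)
      have e2 := hy _ _ (hb i)
      have e3 := hy _ _ (ha j)
      have e4 := hy _ _ (hb j)
      omega
    rw [id1_pos hs, id1_neg (by simpa using h)]
    norm_num
  · rw [id1_pos h]
    have := id1_nonneg (Same y)
    linarith

theorem exp_small {t : ℝ} (ht : 7 ≤ t) : Real.exp (-t) ≤ 1 / 8 := by
  have h1 := Real.add_one_le_exp t
  rw [Real.exp_neg, one_div]
  exact inv_anti₀ (by norm_num) (by linarith)

theorem t_SLO : S_ERF → S_SLO := by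
  intro hE ρ η hρ hη
  set γ : ℝ := η / 16 with hγ
  have hγ0 : 0 < γ := by positivity
  set h : ℝ := η / (16 * (ρ + γ)) with hh
  have hh0 : 0 < h := by positivity
  set c : ℝ := 2 * ρ + η / 4 with hc
  have hc0 : 0 < c := by positivity
  have hcc : 2 * (1 + h) * (ρ + γ) = c := by
    rw [hh, hc, hγ]
    field_simp
    ring
  set L0 : ℝ := 7 / h + 14 / η + 8 / η * (8 * c / η + 1) + 1 with hL0
  have hev : ∀ᶠ k : ℕ in atTop, L0 ≤ Real.log k :=
    (Real.tendsto_log_atTop.comp tendsto_natCast_atTop_atTop).eventually_ge_atTop L0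
  obtain ⟨k₀, hk₀⟩ := eventually_atTop.1 hev
  refine ⟨k₀ + 1, fun k hk => ?_⟩
  have hk1 : 1 ≤ k := by omega
  have hkR : (1 : ℝ) ≤ k := by exact_mod_cast hk1
  set L : ℝ := Real.log k with hL
  have hLL : L0 ≤ L := hk₀ k (by omega)
  have p1 : 0 < 7 / h := by positivity
  have p2 : 0 < 14 / η := by positivity
  have p3 : 0 < 8 / η * (8 * c / η + 1) := by positivity
  have hLpos : 0 < L := by linarith
  have c1 : 7 ≤ h * L := by
    have : 7 / h ≤ L := by linarith
    rw [div_le_iff₀ hh0] at this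
    linarith
  have c3 : 7 ≤ η / 2 * L := by
    have : 14 / η ≤ L := by linarith
    rw [div_le_iff₀ hη] at this
    linarith
  have c2 : 8 * c / η + 1 ≤ η / 8 * L := by
    have h1 : 8 / η * (8 * c / η + 1) ≤ L := by linarith
    have h2 : η / 8 * (8 / η * (8 * c / η + 1)) ≤ η / 8 * L :=
      mul_le_mul_of_nonneg_left h1 (by positivity)
    have h3 : η / 8 * (8 / η * (8 * c / η + 1)) = 8 * c / η + 1 := by
      field_simp
    linarith
  set x : ℝ := √ (c * L) with hx
  have hx0 : 0 ≤ x := Real.sqrt_nonneg _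
  have hxx : x ^ 2 = c * L := Real.sq_sqrt (by positivity)
  have hx1 : (x + 1) ^ 2 ≤ (2 * ρ + η / 2) * L := by
    have h1 : 2 * x ≤ η / 8 * L + 8 * c / η := by
      have hu : 0 < η / (8 * c) := by positivity
      have h2 : 0 ≤ (η / (8 * c) * x - 1) ^ 2 / (η / (8 * c)) := by positivity
      have h3 : (η / (8 * c) * x - 1) ^ 2 / (η / (8 * c)) =
          η / (8 * c) * x ^ 2 - 2 * x + 8 * c / η := by
        field_simp
        ring
      have h4 : η / (8 * c) * x ^ 2 = η / 8 * L := by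
        rw [hxx]
        field_simp
      rw [h3, h4] at h2
      linarith
    have h5 : (x + 1) ^ 2 = x ^ 2 + 2 * x + 1 := by ring
    rw [h5, hxx]
    have h6 : (2 * ρ + η / 2) * L = c * L + η / 8 * L + η / 8 * L := by rw [hc]; ring
    rw [h6]
    linarith
  set w : ℝ := Real.exp (-((2 * ρ + η / 2) * L)) with hw
  have hw0 : 0 < w := Real.exp_pos _
  have hErf : w / 2 ≤ 1 - Erf x := by
    refine le_trans ?_ (hE.2 x hx0)
    have : w ≤ Real.exp (-(x + 1) ^ 2) := Real.exp_le_exp.2 (by linarith)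
    linarith
  obtain ⟨q₀, hq₀⟩ := U_erf (ε := w / 4) (by positivity)
  refine ⟨⌈(ρ + γ) * q₀⌉₊ + 1, γ, hγ0, fun s n hs hsn => ?_⟩
  have hs1 : (1 : ℝ) ≤ s := by exact_mod_cast (show 1 ≤ s by omega)
  have hsn' : (s : ℝ) ≤ (ρ + γ) * n := by
    have := (abs_le.1 hsn).2
    linarith
  have hnq : q₀ ≤ n := by
    have h1 : (ρ + γ) * q₀ ≤ s := by
      have h2 := Nat.le_ceil ((ρ + γ) * q₀)
      have h3 : ((⌈(ρ + γ) * q₀⌉₊ : ℕ) : ℝ) ≤ s := by exact_mod_cast (by omega)
      linarith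
    have h4 : (ρ + γ) * (q₀ : ℝ) ≤ (ρ + γ) * n := h1.trans hsn'
    have h5 : (q₀ : ℝ) ≤ n := le_of_mul_le_mul_left h4 (by positivity)
    exact_mod_cast h5
  have hn0 : (0 : ℝ) < n := by
    by_contra hcon
    have h1 : (ρ + γ) * n ≤ 0 := mul_nonpos_of_nonneg_of_nonpos (by positivity) (not_lt.1 hcon)
    linarith
  have hsq : 0 < √ (n : ℝ) := Real.sqrt_pos.2 hn0
  set y0 : ℝ := x * √ (n : ℝ) / 2 with hy0
  have hy00 : 0 ≤ y0 := by positivity
  -- the bad event
  have hbad := t_TAIL (k + 1) s y0 hy00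
  have hbad2 : iw (fun z : Fin (k + 1) → ℤ => id1 (∃ i, y0 < |(z i : ℝ) - s / 2|)) s (fun _ => 0) ≤
      1 / 2 := by
    refine hbad.trans ?_
    have h1 : Real.exp (-2 * y0 ^ 2 / s) ≤ Real.exp (-((1 + h) * L)) := by
      refine Real.exp_le_exp.2 ?_
      have h2 : y0 ^ 2 = c * L * n / 4 := by
        rw [hy0, div_pow, mul_pow, hxx, Real.sq_sqrt hn0.le]
        norm_num
      rw [h2, ← hcc]
      rw [div_le_iff₀ (by linarith)]
      have h3 : (1 + h) * L * s ≤ (1 + h) * L * ((ρ + γ) * n) :=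
        mul_le_mul_of_nonneg_left hsn' (by positivity)
      linarith [h3, show -2 * (2 * (1 + h) * (ρ + γ) * L * n / 4) =
        -((1 + h) * L * ((ρ + γ) * n)) by ring]
    have h4 : Real.exp (-((1 + h) * L)) = Real.exp (-(h * L)) / k := by
      rw [show -((1 + h) * L) = -(h * L) - L by ring, Real.exp_sub, hL,
        Real.exp_log (by linarith)]
    have h5 := exp_small c1
    have h6 : ((k + 1 : ℕ) : ℝ) ≤ 2 * k := by push_cast; linarith
    calc 2 * ((k + 1 : ℕ) : ℝ) * Real.exp (-2 * y0 ^ 2 / s)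
        ≤ 2 * (2 * k) * (Real.exp (-(h * L)) / k) := by
          rw [← h4]
          gcongr
      _ = 4 * Real.exp (-(h * L)) := by
          field_simp
          ring
      _ ≤ 1 / 2 := by linarith
  -- the good event
  have hgood : ∀ z : Fin (k + 1) → ℤ,
      (-(w / 4)) * id1 (∃ i, y0 < |(z i : ℝ) - s / 2|) + w / 4 ≤
        cw (fun y : Fin (k + 1) → ℤ => id1 (Same y)) n z := by
    intro z
    by_cases hz : ∃ i, y0 < |(z i : ℝ) - s / 2|
    · rw [id1_pos hz]
      have := (cw_mem (G := fun y : Fin (k + 1) → ℤ => id1 (Same y))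
        (fun _ => id1_nonneg _) (fun _ => id1_le_one _) n z).1
      linarith
    · rw [id1_neg hz]
      push Not at hz
      obtain ⟨a, b, hab, hU⟩ := cw_same_ge hk1 n z
      refine le_trans ?_ hU
      obtain ⟨d, hd⟩ : ∃ d : ℕ, z b.succ - z a.succ = d := ⟨(z b.succ - z a.succ).toNat, by omega⟩
      have hdR : (d : ℝ) ≤ 2 * y0 := by
        have e1 := (abs_le.1 (hz b.succ)).2
        have e2 := (abs_le.1 (hz a.succ)).1
        have e3 : ((z b.succ - z a.succ : ℤ) : ℝ) = (d : ℝ) := by rw [hd]; norm_cast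
        push_cast at e3
        linarith
      have e4 := hq₀ (2 * n) (by omega) (2 * d)
      have e5 : ((2 * d : ℕ) : ℝ) / √ (2 * ((2 * n : ℕ) : ℝ)) ≤ x := by
        have e6 : √ (2 * ((2 * n : ℕ) : ℝ)) = 2 * √ (n : ℝ) := by
          rw [show (2 * ((2 * n : ℕ) : ℝ)) = 2 ^ 2 * (n : ℝ) by push_cast; ring,
            Real.sqrt_mul (by norm_num), Real.sqrt_sq (by norm_num)]
        rw [e6, div_le_iff₀ (by positivity)]
        push_cast
        have e7 : x * (2 * √ (n : ℝ)) = 4 * y0 := by rw [hy0]; ring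
        rw [e7]
        linarith
      have e8 := Erf_mono e5
      have e9 := (abs_le.1 e4).2
      have e10 : U (2 * n) (2 * (z b.succ - z a.succ)) = U (2 * n) ((2 * d : ℕ) : ℤ) := by
        rw [hd]; push_cast; rfl
      rw [e10]
      linarith
  have hfin := iw_mono hgood s (fun _ => 0)
  rw [iw_aff (fun z : Fin (k + 1) → ℤ => id1 (∃ i, y0 < |(z i : ℝ) - s / 2|)) (-(w / 4)) (w / 4) s
    (fun _ => 0)] at hfin
  refine le_trans ?_ hfin
  have hpow : (k : ℝ) ^ (-(2 * ρ + η)) = w * Real.exp (-(η / 2 * L)) := by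
    rw [Real.rpow_def_of_pos (by linarith), hw, ← Real.exp_add, ← hL]
    congr 1
    ring
  rw [hpow]
  have h7 := exp_small c3
  have h8 : w * Real.exp (-(η / 2 * L)) ≤ w * (1 / 8) := mul_le_mul_of_nonneg_left h7 hw0.le
  have h9 : w / 4 * iw (fun z : Fin (k + 1) → ℤ => id1 (∃ i, y0 < |(z i : ℝ) - s / 2|)) s
      (fun _ => 0) ≤ w / 4 * (1 / 2) := mul_le_mul_of_nonneg_left hbad2 (by positivity)
  linarith

end Pool.Agent.J4H98.SM
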